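import Pool.Agent.Lib.MP_dd84fd_nt.E2.Defs
import Pool.Agent.Lib.MP_dd84fd_nt.En.Defs

/-!
# Goldbach representations and the large spectrum: definitions

Everything is modulo `N` (later `N = 3 X`). `χ = ZMod.stdAddChar` is `j ↦ e(j/N)`.
-/

set_option autoImplicit false

namespace Pool.MP_dd84fd_nt.LS

open Finset Pool.MP_67663b_nt.Odd Pool.MP_dd84fd_nt.En Pool.MP_dd84fd_nt.E2

/-- the exponential sum `Σ_{1 ≤ n ≤ X} f(n) e(n j / N)` -/
noncomputable def tr (N : ℕ) [NeZero N] (X : ℕ) (f : ℕ → ℝ) (j : ZMod N) : ℂ :=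
  ∑ n ∈ Icc 1 X, (f n : ℂ) * ZMod.stdAddChar ((n : ZMod N) * j)

/-- the `n`-th Fourier coefficient `(1/N) Σ_j r(j) e(-n j / N)` -/
noncomputable def co (N : ℕ) [NeZero N] (r : ZMod N → ℂ) (n : ℕ) : ℂ :=
  (1 / (N : ℂ)) * ∑ j : ZMod N, r j * ZMod.stdAddChar (-((n : ZMod N) * j))

/-- the large spectrum of `ξ` at level `δ` -/
noncomputable def spec (N : ℕ) [NeZero N] (X : ℕ) (ξ : ℕ → ℝ) (δ : ℝ) : Finset (ZMod N) :=
  univ.filter (fun j : ZMod N => δ < ‖tr N X ξ j‖)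

/-- indicator function of the primes -/
noncomputable def ip (n : ℕ) : ℝ := if n.Prime then 1 else 0

/-- `n` is bad: the number of representations differs from the prediction by more than
`n / (log n)^B` -/
def Bad (B n : ℕ) : Prop := (n : ℝ) / (Real.log n) ^ B < |(g n : ℝ) - SS n * JJ n|

end Pool.MP_dd84fd_nt.LS
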