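import Pool.Agent.Lib.MP_dd84fd_nt.E2.SupClose
import Pool.Agent.Lib.MP_dd84fd_nt.E2.FBound
import Pool.Agent.Lib.MP_dd84fd_nt.E2.ConvMain
import Pool.Agent.Lib.MP_dd84fd_nt.E2.SingRate
import Pool.Agent.Lib.MP_dd84fd_nt.LS.Defs

/-!
# the model at the point `n ≤ Y` (module LS-PT)
-/

set_option autoImplicit false

namespace Pool.MP_dd84fd_nt.LS

open Finset Pool.MP_67663b_nt.Odd Pool.MP_dd84fd_nt.En Pool.MP_dd84fd_nt.E2

private lemma pt_ev_pow (c : ℝ) (k : ℕ) {η : ℝ} (hη : 0 < η) :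
    ∀ᶠ X : ℕ in Filter.atTop, c * (Real.log X) ^ k ≤ (X : ℝ) ^ η := by
  have h1 := isLittleO_log_rpow_rpow_atTop (k : ℝ) hη
  have h2 := h1.bound (c := (|c| + 1)⁻¹) (by positivity)
  have h3 := tendsto_natCast_atTop_atTop (R := ℝ) |>.eventually h2
  have h4 : ∀ᶠ X : ℕ in Filter.atTop, 1 ≤ X := Filter.eventually_ge_atTop 1
  filter_upwards [h3, h4] with X h5 h6
  have hX : (1 : ℝ) ≤ X := by exact_mod_cast h6
  have hL : 0 ≤ Real.log X := Real.log_nonneg hX
  rw [Real.rpow_natCast, Real.norm_of_nonneg (by positivity), Real.norm_of_nonneg (by positivity),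
    inv_mul_eq_div, le_div_iff₀ (by positivity)] at h5
  have h7 : c ≤ |c| + 1 := (le_abs_self c).trans (by linarith)
  nlinarith [mul_le_mul_of_nonneg_right h7 (pow_nonneg hL k)]

private lemma pt_ev_log (c : ℝ) : ∀ᶠ X : ℕ in Filter.atTop, c ≤ Real.log X :=
  (Real.tendsto_log_atTop.comp (tendsto_natCast_atTop_atTop (R := ℝ))).eventually_ge_atTop c

theorem point_close (B D' : ℕ) (hD : B + 5 ≤ D') : ∃ Y0 : ℕ, ∀ Y : ℕ, Y0 ≤ Y → ∀ n : ℕ, Even n →
    0 < n → n ≤ Y → |conv2 (wX D' Y) n - SS n * JJ n| ≤ Y / (4 * (Real.log Y) ^ B) := by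
  obtain ⟨η, hη, hη4, XM, hXM⟩ := conv2_main D' (by omega)
  obtain ⟨C, hC, hSR⟩ := sing_rate
  have hev : ∀ᶠ X : ℕ in Filter.atTop, XM ≤ X ∧ 8 * (Real.log X) ^ B ≤ (X : ℝ) ^ η ∧
      192 * C + 8 ≤ Real.log X ∧ 1 ≤ X :=
    ((Filter.eventually_ge_atTop XM).and
      ((pt_ev_pow 8 B hη).and ((pt_ev_log _).and (Filter.eventually_ge_atTop 1))))
  obtain ⟨X0, hX0⟩ := Filter.eventually_atTop.1 hev
  refine ⟨X0, fun X hX n hev1 hn0 hnX => ?_⟩
  obtain ⟨h2, h3, h4, h5⟩ := hX0 X hX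
  obtain ⟨L, hL⟩ : ∃ L : ℝ, L = Real.log X := ⟨_, rfl⟩
  rw [← hL] at h3 h4
  have hXR : (1 : ℝ) ≤ X := by exact_mod_cast h5
  have hX0' : (0 : ℝ) < X := by linarith
  have hL8 : 8 ≤ L := by linarith
  have hL1 : 1 ≤ L := by linarith
  have hL0 : 0 < L := by linarith
  rw [← hL]
  obtain ⟨w, hw⟩ : ∃ w : ℕ, w = wX D' X := ⟨_, rfl⟩
  rw [← hw]
  have hwle : (w : ℝ) ≤ (Real.log X) ^ D' := by
    rw [hw, wX]
    exact Nat.floor_le (by rw [← hL]; positivity)
  have hLD : L ^ 5 ≤ L ^ D' := pow_le_pow_right₀ hL1 (by omega)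
  have hL5 : 8 * L ≤ L ^ 5 := by
    have : L ^ 5 = L ^ 3 * (L * L) := by ring
    have h6 : (1 : ℝ) ≤ L ^ 3 := one_le_pow₀ hL1
    nlinarith
  have hwge : L ^ D' / 2 ≤ w := by
    have h6 : (Real.log X) ^ D' < (w : ℝ) + 1 := by
      rw [hw, wX]
      exact Nat.lt_floor_add_one _
    rw [← hL] at h6
    have : 2 ≤ L ^ D' := by nlinarith
    linarith
  have hw2 : 2 ≤ w := by
    have h6 : (2 : ℝ) ≤ w := by nlinarith
    exact_mod_cast h6
  have hn2 : 2 ≤ n := by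
    obtain ⟨k, hk⟩ := hev1
    omega
  have hnR : (n : ℝ) ≤ X := by exact_mod_cast hnX
  have hnR2 : (2 : ℝ) ≤ n := by exact_mod_cast hn2
  have hlogn : 0 < Real.log n := Real.log_pos (by linarith)
  have hlognL : Real.log n ≤ L := by
    rw [hL]
    exact Real.log_le_log (by linarith) hnR
  have herr1 : |SS n - SW w n| * JJ n ≤ X / (8 * L ^ B) := by
    have h6 := hSR n hn0 w (by
      have h8 : 4 * (1 + Real.log n) ≤ 4 * (1 + L) := by linarith
      have h9 : 4 * (1 + L) ≤ L ^ 5 / 2 := by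
        have h10 : (64 : ℝ) ≤ L * L := by nlinarith
        have h11 : L ^ 5 = (L * L) * (L * L) * L := by ring
        have h12 : (4096 : ℝ) ≤ (L * L) * (L * L) := by nlinarith
        nlinarith
      linarith)
    have h7 : C * (1 + Real.log n) ^ 2 / w ≤ C * (4 * L ^ 2) / (L ^ D' / 2) := by
      have h8 : (1 + Real.log n) ^ 2 ≤ 4 * L ^ 2 := by nlinarith
      exact div_le_div₀ (by positivity) (mul_le_mul_of_nonneg_left h8 hC.le) (by positivity)
        hwge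
    have h9 : JJ n ≤ 3 * X := (JJ_le n).trans (by linarith)
    have h10 : C * (4 * L ^ 2) / (L ^ D' / 2) * (3 * X) ≤ X / (8 * L ^ B) := by
      have h11 : L ^ (B + 5) ≤ L ^ D' := pow_le_pow_right₀ hL1 hD
      have h12 : C * (4 * L ^ 2) / (L ^ D' / 2) ≤ C * (4 * L ^ 2) / (L ^ (B + 5) / 2) :=
        div_le_div_of_nonneg_left (by positivity) (by positivity) (by linarith)
      have h13 : C * (4 * L ^ 2) / (L ^ (B + 5) / 2) * (3 * X) =
          24 * C * X / (L ^ B * L ^ 3) := by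
        rw [show B + 5 = B + 3 + 2 by ring, pow_add, pow_add]
        field_simp
        ring
      have h14 : 24 * C * X / (L ^ B * L ^ 3) ≤ X / (8 * L ^ B) := by
        rw [div_le_div_iff₀ (by positivity) (by positivity)]
        have h15 : 192 * C ≤ L ^ 3 := by
          have : L ≤ L ^ 3 := by nlinarith [sq_nonneg L]
          linarith
        have h16 : 0 ≤ (X : ℝ) * L ^ B := by positivity
        nlinarith [mul_le_mul_of_nonneg_left h15 h16]
      calc C * (4 * L ^ 2) / (L ^ D' / 2) * (3 * X)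
          ≤ C * (4 * L ^ 2) / (L ^ (B + 5) / 2) * (3 * X) :=
            mul_le_mul_of_nonneg_right h12 (by positivity)
        _ ≤ _ := by rw [h13]; exact h14
    calc |SS n - SW w n| * JJ n ≤ (C * (4 * L ^ 2) / (L ^ D' / 2)) * (3 * X) :=
          mul_le_mul (h6.trans h7) h9 (JJ_nonneg n) (by positivity)
      _ ≤ _ := h10
  have herr2 : |conv2 w n - SW w n * JJ n| ≤ X / (8 * L ^ B) := by
    refine (hXM X h2 w hw2 hwle n hnX hev1 hn0).trans ?_
    rw [Real.rpow_sub hX0', Real.rpow_one]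
    exact div_le_div_of_nonneg_left hX0'.le (by positivity) h3
  have h6 : conv2 w n - SS n * JJ n = (conv2 w n - SW w n * JJ n) - (SS n - SW w n) * JJ n := by
    ring
  rw [h6]
  refine (abs_sub _ _).trans ?_
  rw [abs_mul, abs_of_nonneg (JJ_nonneg n)]
  refine (add_le_add herr2 herr1).trans (le_of_eq ?_)
  field_simp
  norm_num

end Pool.MP_dd84fd_nt.LS
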