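import Pool.Agent.Lib.MP_dd84fd_nt.LS.Defs

/-!
# finite Fourier analysis modulo `N` (module LS-FO)
-/

set_option autoImplicit false

namespace Pool.MP_dd84fd_nt.LS

open Finset Pool.MP_67663b_nt.Odd Pool.MP_dd84fd_nt.En Pool.MP_dd84fd_nt.E2

theorem chi_ee (N : ℕ) [NeZero N] (n : ℕ) (j : ZMod N) :
    ZMod.stdAddChar ((n : ZMod N) * j) = ee ((n : ℝ) * ((j.val : ℝ) / N)) := by
  have h : ((n : ZMod N) * j) = (((n : ℤ) * (j.val : ℤ) : ℤ) : ZMod N) := by
    push_cast
    rw [ZMod.natCast_zmod_val]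
  rw [h, ZMod.stdAddChar_coe]
  unfold ee
  congr 1
  push_cast
  ring

theorem tr_ee (N : ℕ) [NeZero N] (X : ℕ) (f : ℕ → ℝ) (j : ZMod N) :
    tr N X f j = ∑ n ∈ Icc 1 X, (f n : ℂ) * ee ((n : ℝ) * ((j.val : ℝ) / N)) := by
  unfold tr
  exact Finset.sum_congr rfl (fun n _ => by rw [chi_ee])

theorem tr_ip (N : ℕ) [NeZero N] (X : ℕ) (j : ZMod N) : tr N X ip j = P1 X ((j.val : ℝ) / N) := by
  rw [tr_ee]
  unfold P1 ip
  rw [Finset.sum_filter]
  refine Finset.sum_congr rfl (fun n _ => ?_)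
  split_ifs <;> simp

theorem tr_f2 (N : ℕ) [NeZero N] (X w : ℕ) (j : ZMod N) :
    tr N X (f2 w) j = F2 w X ((j.val : ℝ) / N) := by
  rw [tr_ee]
  rfl

theorem tr_add (N : ℕ) [NeZero N] (X : ℕ) (f h : ℕ → ℝ) (j : ZMod N) :
    tr N X (fun n => f n + h n) j = tr N X f j + tr N X h j := by
  unfold tr
  rw [← Finset.sum_add_distrib]
  refine Finset.sum_congr rfl (fun n _ => ?_)
  push_cast
  ring

theorem co_sub (N : ℕ) [NeZero N] (r s : ZMod N → ℂ) (n : ℕ) :
    co N (fun j => r j - s j) n = co N r n - co N s n := by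
  unfold co
  rw [← mul_sub, ← Finset.sum_sub_distrib]
  congr 1
  refine Finset.sum_congr rfl (fun n _ => ?_)
  ring

/-- orthogonality -/
theorem sum_chi (N : ℕ) [NeZero N] (c : ZMod N) :
    ∑ j : ZMod N, (ZMod.stdAddChar (c * j) : ℂ) = if c = 0 then (N : ℂ) else 0 := by
  have h := AddChar.sum_mulShift (R := ZMod N) (R' := ℂ) (ψ := ZMod.stdAddChar) c
    (ZMod.isPrimitive_stdAddChar N)
  rw [ZMod.card] at h
  have h2 : ∑ j : ZMod N, (ZMod.stdAddChar (c * j) : ℂ) =
      ∑ x : ZMod N, (ZMod.stdAddChar (x * c) : ℂ) :=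
    Finset.sum_congr rfl (fun j _ => by rw [mul_comm])
  rw [h2, h]
  split_ifs <;> simp

theorem conj_chi (N : ℕ) [NeZero N] (c : ZMod N) :
    (starRingEnd ℂ) (ZMod.stdAddChar c : ℂ) = ZMod.stdAddChar (-c) := by
  rw [AddChar.map_neg_eq_conj]

/-- the double sum after expanding: a general form -/
theorem norm_sq_tr (N : ℕ) [NeZero N] (X : ℕ) (f : ℕ → ℝ) (j : ZMod N) :
    ((‖tr N X f j‖ ^ 2 : ℝ) : ℂ) =
      ∑ a ∈ Icc 1 X, ∑ b ∈ Icc 1 X, ((f a * f b : ℝ) : ℂ) *
        ZMod.stdAddChar (((a : ZMod N) - (b : ZMod N)) * j) := by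
  have h1 : ((‖tr N X f j‖ ^ 2 : ℝ) : ℂ) = tr N X f j * (starRingEnd ℂ) (tr N X f j) := by
    rw [Complex.mul_conj, Complex.normSq_eq_norm_sq]
  rw [h1]
  unfold tr
  rw [map_sum, Finset.sum_mul_sum]
  refine Finset.sum_congr rfl (fun a _ => Finset.sum_congr rfl (fun b _ => ?_))
  rw [RingHom.map_mul, conj_chi, Complex.conj_ofReal]
  have : ((a : ZMod N) - (b : ZMod N)) * j = (a : ZMod N) * j + (-((b : ZMod N) * j)) := by ring
  rw [this, AddChar.map_add_eq_mul]
  push_cast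
  ring

theorem cast_eq_small {N a b : ℕ} (ha : a < N) (hb : b < N) (h : (a : ZMod N) = (b : ZMod N)) :
    a = b := by
  have := (ZMod.natCast_eq_natCast_iff' a b N).1 h
  rwa [Nat.mod_eq_of_lt ha, Nat.mod_eq_of_lt hb] at this

theorem parseval (N : ℕ) [NeZero N] (X : ℕ) (hX : X < N) (f : ℕ → ℝ) :
    (1 / (N : ℝ)) * ∑ j : ZMod N, ‖tr N X f j‖ ^ 2 = ∑ n ∈ Icc 1 X, f n ^ 2 := by
  have hN : (N : ℂ) ≠ 0 := by exact_mod_cast NeZero.ne N
  have key : ((∑ j : ZMod N, ‖tr N X f j‖ ^ 2 : ℝ) : ℂ) = (N : ℂ) * ((∑ n ∈ Icc 1 X, f n ^ 2 : ℝ) : ℂ) := by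
    rw [Complex.ofReal_sum]
    have : ∀ j ∈ (univ : Finset (ZMod N)), (((‖tr N X f j‖ ^ 2 : ℝ)) : ℂ) =
      ∑ a ∈ Icc 1 X, ∑ b ∈ Icc 1 X, ((f a * f b : ℝ) : ℂ) *
        ZMod.stdAddChar (((a : ZMod N) - (b : ZMod N)) * j) := fun j _ => norm_sq_tr N X f j
    rw [Finset.sum_congr rfl this, Finset.sum_comm, Complex.ofReal_sum, Finset.mul_sum]
    refine Finset.sum_congr rfl (fun a ha => ?_)
    rw [Finset.sum_comm]
    rw [Finset.sum_eq_single a]
    · rw [← Finset.mul_sum, sum_chi, if_pos (by ring)]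
      push_cast
      ring
    · intro b hb hne
      rw [← Finset.mul_sum, sum_chi, if_neg, mul_zero]
      intro h0
      apply hne
      rw [Finset.mem_Icc] at ha hb
      exact (cast_eq_small (by omega) (by omega) (sub_eq_zero.1 h0)).symm
    · intro h
      exact absurd ha h
  have key2 : ∑ j : ZMod N, ‖tr N X f j‖ ^ 2 = (N : ℝ) * ∑ n ∈ Icc 1 X, f n ^ 2 := by
    exact_mod_cast key
  rw [key2]
  have hN' : (N : ℝ) ≠ 0 := by exact_mod_cast NeZero.ne N
  field_simp

theorem co_sq (N : ℕ) [NeZero N] (Y : ℕ) (hY : 2 * Y < N) (u : ℕ → ℝ) (n : ℕ) (hn : n ≤ Y) :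
    co N (fun j => tr N Y u j ^ 2) n =
      ((∑ a ∈ Icc 1 (n - 1), u a * u (n - a) : ℝ) : ℂ) := by
  have hN : (N : ℂ) ≠ 0 := by exact_mod_cast NeZero.ne N
  unfold co
  have h1 : ∀ j ∈ (univ : Finset (ZMod N)), tr N Y u j ^ 2 * ZMod.stdAddChar (-((n : ZMod N) * j)) =
      ∑ a ∈ Icc 1 Y, ∑ b ∈ Icc 1 Y, ((u a * u b : ℝ) : ℂ) *
        ZMod.stdAddChar (((a : ZMod N) + (b : ZMod N) - (n : ZMod N)) * j) := by
    intro j _
    unfold tr
    rw [pow_two, Finset.sum_mul_sum, Finset.sum_mul]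
    refine Finset.sum_congr rfl (fun a _ => ?_)
    rw [Finset.sum_mul]
    refine Finset.sum_congr rfl (fun b _ => ?_)
    have : ((a : ZMod N) + (b : ZMod N) - (n : ZMod N)) * j =
      (a : ZMod N) * j + (b : ZMod N) * j + (-((n : ZMod N) * j)) := by ring
    rw [this, AddChar.map_add_eq_mul, AddChar.map_add_eq_mul]
    push_cast
    ring
  rw [Finset.sum_congr rfl h1, Finset.sum_comm]
  have h2 : ∀ a ∈ Icc 1 Y, ∑ j : ZMod N, ∑ b ∈ Icc 1 Y, ((u a * u b : ℝ) : ℂ) *
        ZMod.stdAddChar (((a : ZMod N) + (b : ZMod N) - (n : ZMod N)) * j) =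
      if a ≤ n - 1 then (N : ℂ) * ((u a * u (n - a) : ℝ) : ℂ) else 0 := by
    intro a ha
    rw [Finset.mem_Icc] at ha
    rw [Finset.sum_comm]
    by_cases han : a ≤ n - 1
    · rw [if_pos han]
      rw [Finset.sum_eq_single (n - a)]
      · rw [← Finset.mul_sum, sum_chi, if_pos]
        · ring
        · rw [Nat.cast_sub (by omega)]
          ring
      · intro b hb hne
        rw [Finset.mem_Icc] at hb
        rw [← Finset.mul_sum, sum_chi, if_neg, mul_zero]
        intro h0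
        apply hne
        have : ((a + b : ℕ) : ZMod N) = ((n : ℕ) : ZMod N) := by
          push_cast
          exact sub_eq_zero.1 h0
        have := cast_eq_small (by omega) (by omega) this
        omega
      · intro h
        exfalso
        apply h
        rw [Finset.mem_Icc]
        omega
    · rw [if_neg han]
      apply Finset.sum_eq_zero
      intro b hb
      rw [Finset.mem_Icc] at hb
      rw [← Finset.mul_sum, sum_chi, if_neg, mul_zero]
      intro h0
      have : ((a + b : ℕ) : ZMod N) = ((n : ℕ) : ZMod N) := by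
        push_cast
        exact sub_eq_zero.1 h0
      have := cast_eq_small (by omega) (by omega) this
      omega
  rw [Finset.sum_congr rfl h2, ← Finset.sum_filter]
  have h3 : (Icc 1 Y).filter (fun a => a ≤ n - 1) = Icc 1 (n - 1) := by
    ext a
    simp only [Finset.mem_filter, Finset.mem_Icc]
    omega
  rw [h3, ← Finset.mul_sum, ← mul_assoc, one_div, inv_mul_cancel₀ hN, one_mul, Complex.ofReal_sum]

theorem co_fejer (N : ℕ) [NeZero N] (M n : ℕ) (hN : M + n < N) (hn : n ≤ M) :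
    co N (fun j => ((‖tr N M (fun _ => 1) j‖ ^ 2 : ℝ) : ℂ)) n = ((M : ℂ) - n) := by
  have hN0 : (N : ℂ) ≠ 0 := by exact_mod_cast NeZero.ne N
  unfold co
  have h1 : ∀ j ∈ (univ : Finset (ZMod N)), ((‖tr N M (fun _ => 1) j‖ ^ 2 : ℝ) : ℂ) *
        ZMod.stdAddChar (-((n : ZMod N) * j)) =
      ∑ b ∈ Icc 1 M, ∑ a ∈ Icc 1 M,
        ZMod.stdAddChar (((a : ZMod N) - (b : ZMod N) - (n : ZMod N)) * j) := by
    intro j _
    rw [norm_sq_tr, Finset.sum_comm, Finset.sum_mul]
    refine Finset.sum_congr rfl (fun b _ => ?_)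
    rw [Finset.sum_mul]
    refine Finset.sum_congr rfl (fun a _ => ?_)
    have : ((a : ZMod N) - (b : ZMod N) - (n : ZMod N)) * j =
      ((a : ZMod N) - (b : ZMod N)) * j + (-((n : ZMod N) * j)) := by ring
    rw [this, AddChar.map_add_eq_mul]
    push_cast
    ring
  rw [Finset.sum_congr rfl h1, Finset.sum_comm]
  have h2 : ∀ b ∈ Icc 1 M, ∑ j : ZMod N, ∑ a ∈ Icc 1 M,
        (ZMod.stdAddChar (((a : ZMod N) - (b : ZMod N) - (n : ZMod N)) * j) : ℂ) =
      if b ≤ M - n then (N : ℂ) else 0 := by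
    intro b hb
    rw [Finset.mem_Icc] at hb
    rw [Finset.sum_comm]
    by_cases hbn : b ≤ M - n
    · rw [if_pos hbn]
      rw [Finset.sum_eq_single (b + n)]
      · rw [sum_chi, if_pos]
        push_cast
        ring
      · intro a ha hne
        rw [Finset.mem_Icc] at ha
        rw [sum_chi, if_neg]
        intro h0
        apply hne
        have : ((a : ℕ) : ZMod N) = ((b + n : ℕ) : ZMod N) := by
          push_cast
          rw [sub_sub] at h0
          exact sub_eq_zero.1 h0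
        exact cast_eq_small (by omega) (by omega) this
      · intro h
        exfalso
        apply h
        rw [Finset.mem_Icc]
        omega
    · rw [if_neg hbn]
      apply Finset.sum_eq_zero
      intro a ha
      rw [Finset.mem_Icc] at ha
      rw [sum_chi, if_neg]
      intro h0
      have : ((a : ℕ) : ZMod N) = ((b + n : ℕ) : ZMod N) := by
        push_cast
        rw [sub_sub] at h0
        exact sub_eq_zero.1 h0
      have := cast_eq_small (by omega) (by omega) this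
      omega
  rw [Finset.sum_congr rfl h2, ← Finset.sum_filter]
  have h3 : (Icc 1 M).filter (fun b => b ≤ M - n) = Icc 1 (M - n) := by
    ext a
    simp only [Finset.mem_filter, Finset.mem_Icc]
    omega
  rw [h3, Finset.sum_const, Nat.card_Icc, nsmul_eq_mul]
  have h4 : ((M - n + 1 - 1 : ℕ) : ℂ) = (M : ℂ) - n := by
    rw [Nat.add_sub_cancel, Nat.cast_sub hn]
  rw [h4]
  field_simp

end Pool.MP_dd84fd_nt.LS
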