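import Pool.Agent.Lib.MP_dd84fd_nt.LS.Defs

/-!
# the large spectrum inequality (module LS-SB)
-/

set_option autoImplicit false

namespace Pool.MP_dd84fd_nt.LS

open Finset Pool.MP_67663b_nt.Odd Pool.MP_dd84fd_nt.En Pool.MP_dd84fd_nt.E2

open ComplexConjugate in
private lemma sb_conj (N : ℕ) [NeZero N] (x : ZMod N) :
    conj (ZMod.stdAddChar (N := N) x) = ZMod.stdAddChar (N := N) (-x) :=
  (AddChar.map_neg_eq_conj _ _).symm

open ComplexConjugate in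
private lemma sb_co (N : ℕ) [NeZero N] (r : ZMod N → ℂ) (n : ℕ) :
    ((‖co N r n‖ ^ 2 : ℝ) : ℂ) = (1 / (N : ℂ)) ^ 2 * ∑ j : ZMod N, ∑ k : ZMod N,
      r j * conj (r k) * ZMod.stdAddChar ((n : ZMod N) * (k - j)) := by
  rw [Complex.ofReal_pow, ← Complex.mul_conj']
  unfold co
  rw [map_mul, map_sum, map_div₀, map_one, Complex.conj_natCast]
  rw [mul_mul_mul_comm, ← pow_two, Finset.sum_mul_sum]
  congr 1
  refine Finset.sum_congr rfl fun j _ => Finset.sum_congr rfl fun k _ => ?_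
  rw [map_mul, sb_conj, neg_neg, mul_sub, sub_eq_neg_add, AddChar.map_add_eq_mul]
  ring

open ComplexConjugate in
private lemma sb_sum (N : ℕ) [NeZero N] (X : ℕ) (ξ : ℕ → ℝ) (r : ZMod N → ℂ) :
    ((∑ n ∈ Icc 1 X, ξ n * ‖co N r n‖ ^ 2 : ℝ) : ℂ) = (1 / (N : ℂ)) ^ 2 *
      ∑ j : ZMod N, ∑ k : ZMod N, r j * conj (r k) * tr N X ξ (k - j) := by
  rw [Complex.ofReal_sum]
  have h1 : ∀ n ∈ Icc 1 X, ((ξ n * ‖co N r n‖ ^ 2 : ℝ) : ℂ) = (1 / (N : ℂ)) ^ 2 *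
      ∑ j : ZMod N, ∑ k : ZMod N, (r j * conj (r k)) *
        ((ξ n : ℂ) * ZMod.stdAddChar ((n : ZMod N) * (k - j))) := by
    intro n _
    rw [Complex.ofReal_mul, sb_co, mul_left_comm, Finset.mul_sum]
    congr 1
    refine Finset.sum_congr rfl fun j _ => ?_
    rw [Finset.mul_sum]
    refine Finset.sum_congr rfl fun k _ => ?_
    ring
  rw [Finset.sum_congr rfl h1, ← Finset.mul_sum]
  congr 1
  rw [Finset.sum_comm]
  refine Finset.sum_congr rfl fun j _ => ?_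
  rw [Finset.sum_comm]
  refine Finset.sum_congr rfl fun k _ => ?_
  unfold tr
  rw [Finset.mul_sum]

private lemma sb_tr (N : ℕ) [NeZero N] (X : ℕ) (ξ : ℕ → ℝ) (hξ : ∀ n, 0 ≤ ξ n)
    (hsum : ∑ n ∈ Icc 1 X, ξ n ≤ 1) (j : ZMod N) : ‖tr N X ξ j‖ ≤ 1 := by
  unfold tr
  refine (norm_sum_le _ _).trans (le_trans (le_of_eq ?_) hsum)
  refine Finset.sum_congr rfl fun n _ => ?_
  rw [norm_mul, AddChar.norm_apply, mul_one, Complex.norm_real, Real.norm_of_nonneg (hξ n)]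

theorem spec_bound (N : ℕ) [NeZero N] (X : ℕ) (ξ : ℕ → ℝ) (hξ : ∀ n, 0 ≤ ξ n)
    (hsum : ∑ n ∈ Icc 1 X, ξ n ≤ 1) (r : ZMod N → ℂ) (δ : ℝ) (hδ : 0 ≤ δ) :
    ∑ n ∈ Icc 1 X, ξ n * ‖co N r n‖ ^ 2 ≤ δ * ((1 / (N : ℝ)) * ∑ j, ‖r j‖) ^ 2 +
      ((spec N X ξ δ).card : ℝ) / N * ((1 / (N : ℝ)) * ∑ j, ‖r j‖ ^ 2) := by
  classical
  have hN : (0 : ℝ) < N := by exact_mod_cast Nat.pos_of_ne_zero (NeZero.ne N)
  have h1 : ∑ n ∈ Icc 1 X, ξ n * ‖co N r n‖ ^ 2 ≤ (1 / (N : ℝ)) ^ 2 *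
      ∑ j : ZMod N, ∑ k : ZMod N, ‖r j‖ * ‖r k‖ * ‖tr N X ξ (k - j)‖ := by
    have h2 : ‖((∑ n ∈ Icc 1 X, ξ n * ‖co N r n‖ ^ 2 : ℝ) : ℂ)‖ ≤ (1 / (N : ℝ)) ^ 2 *
        ∑ j : ZMod N, ∑ k : ZMod N, ‖r j‖ * ‖r k‖ * ‖tr N X ξ (k - j)‖ := by
      rw [sb_sum, norm_mul]
      have h3 : ‖(1 / (N : ℂ)) ^ 2‖ = (1 / (N : ℝ)) ^ 2 := by
        rw [norm_pow, norm_div, norm_one, Complex.norm_natCast]
      rw [h3]
      refine mul_le_mul_of_nonneg_left ?_ (by positivity)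
      refine (norm_sum_le _ _).trans (Finset.sum_le_sum fun j _ => ?_)
      refine (norm_sum_le _ _).trans (Finset.sum_le_sum fun k _ => ?_)
      rw [norm_mul, norm_mul, RCLike.norm_conj]
    rw [Complex.norm_real] at h2
    exact (le_abs_self _).trans h2
  refine h1.trans ?_
  have h2 : ∀ d : ZMod N, ‖tr N X ξ d‖ ≤ δ + (if d ∈ spec N X ξ δ then 1 else 0) := by
    intro d
    split_ifs with h
    · have := sb_tr N X ξ hξ hsum d
      linarith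
    · unfold spec at h
      simp only [Finset.mem_filter, Finset.mem_univ, true_and, not_lt] at h
      linarith
  have h3 : ∑ j : ZMod N, ∑ k : ZMod N, ‖r j‖ * ‖r k‖ * ‖tr N X ξ (k - j)‖ ≤
      δ * (∑ j, ‖r j‖) ^ 2 + ∑ j : ZMod N, ∑ k : ZMod N,
        (if k - j ∈ spec N X ξ δ then (1 : ℝ) else 0) * ((‖r j‖ ^ 2 + ‖r k‖ ^ 2) / 2) := by
    have h4 : δ * (∑ j, ‖r j‖) ^ 2 = ∑ j : ZMod N, ∑ k : ZMod N, δ * (‖r j‖ * ‖r k‖) := by
      rw [pow_two, Finset.sum_mul_sum, Finset.mul_sum]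
      refine Finset.sum_congr rfl fun j _ => ?_
      rw [Finset.mul_sum]
    rw [h4, ← Finset.sum_add_distrib]
    refine Finset.sum_le_sum fun j _ => ?_
    rw [← Finset.sum_add_distrib]
    refine Finset.sum_le_sum fun k _ => ?_
    have h5 : 0 ≤ ‖r j‖ * ‖r k‖ := by positivity
    have h6 := mul_le_mul_of_nonneg_left (h2 (k - j)) h5
    refine h6.trans ?_
    rw [mul_add, mul_comm (‖r j‖ * ‖r k‖) δ]
    refine add_le_add le_rfl ?_
    split_ifs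
    · nlinarith [sq_nonneg (‖r j‖ - ‖r k‖)]
    · simp
  have h4 : ∑ j : ZMod N, ∑ k : ZMod N,
        (if k - j ∈ spec N X ξ δ then (1 : ℝ) else 0) * ((‖r j‖ ^ 2 + ‖r k‖ ^ 2) / 2) =
      (spec N X ξ δ).card * ∑ j, ‖r j‖ ^ 2 := by
    have h5 : ∀ j k : ZMod N,
        (if k - j ∈ spec N X ξ δ then (1 : ℝ) else 0) * ((‖r j‖ ^ 2 + ‖r k‖ ^ 2) / 2) =
        ‖r j‖ ^ 2 / 2 * (if k - j ∈ spec N X ξ δ then (1 : ℝ) else 0) +
        ‖r k‖ ^ 2 / 2 * (if k - j ∈ spec N X ξ δ then (1 : ℝ) else 0) := by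
      intro j k
      ring
    simp only [h5, Finset.sum_add_distrib]
    have h6 : ∀ j : ZMod N, ∑ k : ZMod N, (if k - j ∈ spec N X ξ δ then (1 : ℝ) else 0) =
        (spec N X ξ δ).card := by
      intro j
      rw [Fintype.sum_equiv (Equiv.subRight j)
        (fun k => (if k - j ∈ spec N X ξ δ then (1 : ℝ) else 0))
        (fun k => (if k ∈ spec N X ξ δ then (1 : ℝ) else 0)) (fun k => rfl)]
      simp
    have h7 : ∀ k : ZMod N, ∑ j : ZMod N, (if k - j ∈ spec N X ξ δ then (1 : ℝ) else 0) =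
        (spec N X ξ δ).card := by
      intro k
      rw [Fintype.sum_equiv (Equiv.subLeft k)
        (fun j => (if k - j ∈ spec N X ξ δ then (1 : ℝ) else 0))
        (fun j => (if j ∈ spec N X ξ δ then (1 : ℝ) else 0)) (fun j => rfl)]
      simp
    have h8 : ∑ j : ZMod N, ∑ k : ZMod N,
        ‖r j‖ ^ 2 / 2 * (if k - j ∈ spec N X ξ δ then (1 : ℝ) else 0) =
        (spec N X ξ δ).card * (∑ j, ‖r j‖ ^ 2) / 2 := by
      rw [mul_div_assoc, Finset.sum_div, Finset.mul_sum]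
      refine Finset.sum_congr rfl fun j _ => ?_
      rw [← Finset.mul_sum, h6]
      ring
    have h9 : ∑ j : ZMod N, ∑ k : ZMod N,
        ‖r k‖ ^ 2 / 2 * (if k - j ∈ spec N X ξ δ then (1 : ℝ) else 0) =
        (spec N X ξ δ).card * (∑ j, ‖r j‖ ^ 2) / 2 := by
      rw [Finset.sum_comm, mul_div_assoc, Finset.sum_div, Finset.mul_sum]
      refine Finset.sum_congr rfl fun k _ => ?_
      rw [← Finset.mul_sum, h7]
      ring
    rw [h8, h9]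
    ring
  rw [h4] at h3
  have h5 := mul_le_mul_of_nonneg_left h3 (by positivity : (0 : ℝ) ≤ (1 / (N : ℝ)) ^ 2)
  refine h5.trans (le_of_eq ?_)
  field_simp

end Pool.MP_dd84fd_nt.LS
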