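import Pool.Agent.Lib.MP_dd84fd_nt.LS.Four

/-!
# from Lebesgue measure to a count (module LS-ME)
-/

set_option autoImplicit false

namespace Pool.MP_dd84fd_nt.LS

open Finset Pool.MP_67663b_nt.Odd Pool.MP_dd84fd_nt.En Pool.MP_dd84fd_nt.E2

theorem lip_sum (X : ℕ) (ξ : ℕ → ℝ) (hξ : ∀ n, 0 ≤ ξ n) (hs : ∑ n ∈ Icc 1 X, ξ n ≤ 1) (s t : ℝ) :
    ‖∑ n ∈ Icc 1 X, (ξ n : ℂ) * ee ((n : ℝ) * s)‖ -
      ‖∑ n ∈ Icc 1 X, (ξ n : ℂ) * ee ((n : ℝ) * t)‖ ≤ 2 * Real.pi * X * |s - t| := by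
  refine (norm_sub_norm_le _ _).trans ?_
  rw [← Finset.sum_sub_distrib]
  refine (norm_sum_le _ _).trans ?_
  have h1 : ∀ n ∈ Icc 1 X, ‖(ξ n : ℂ) * ee ((n : ℝ) * s) - (ξ n : ℂ) * ee ((n : ℝ) * t)‖ ≤
      ξ n * (2 * Real.pi * X * |s - t|) := by
    intro n hn
    rw [Finset.mem_Icc] at hn
    rw [← mul_sub, norm_mul, Complex.norm_real, Real.norm_of_nonneg (hξ n)]
    refine mul_le_mul_of_nonneg_left ?_ (hξ n)
    refine (norm_ee_sub_ee_le _ _).trans ?_
    rw [← mul_sub, abs_mul, Nat.abs_cast, ← mul_assoc]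
    refine mul_le_mul_of_nonneg_right ?_ (abs_nonneg _)
    refine mul_le_mul_of_nonneg_left ?_ (by positivity)
    exact_mod_cast hn.2
  refine (Finset.sum_le_sum h1).trans ?_
  rw [← Finset.sum_mul]
  calc (∑ n ∈ Icc 1 X, ξ n) * (2 * Real.pi * X * |s - t|) ≤ 1 * (2 * Real.pi * X * |s - t|) :=
        mul_le_mul_of_nonneg_right hs (by positivity)
    _ = _ := one_mul _

theorem meas_discrete (C K : ℕ) : ∃ X0 : ℕ, ∀ X : ℕ, X0 ≤ X → ∀ (N : ℕ) [NeZero N], N = 3 * X →
    ∀ ξ : ℕ → ℝ, (∀ n, 0 ≤ ξ n) → ∑ n ∈ Icc 1 X, ξ n ≤ 1 →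
    MeasureTheory.volume {θ : ℝ | 0 ≤ θ ∧ θ ≤ 1 ∧ 1 / (Real.log X) ^ (C + 1) <
      ‖∑ n ∈ Icc 1 X, (ξ n : ℂ) * ee ((n : ℝ) * θ)‖} ≤ ENNReal.ofReal ((Real.log X) ^ K / X) →
    ((spec N X ξ (1 / (Real.log X) ^ C)).card : ℝ) ≤ (Real.log X) ^ (K + C + 1) := by
  refine ⟨⌈Real.exp 13⌉₊, fun X hX N _ hN ξ hξ hs hvol => ?_⟩
  have hXe : Real.exp 13 ≤ X := (Nat.le_ceil _).trans (by exact_mod_cast hX)
  have hXpos : (0 : ℝ) < X := (Real.exp_pos _).trans_le hXe
  have hL : (13 : ℝ) ≤ Real.log X := by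
    rw [Real.le_log_iff_exp_le hXpos]
    exact hXe
  set L : ℝ := Real.log X with hLdef
  have hLpos : 0 < L := by linarith
  have hpi3 : 3 < Real.pi := Real.pi_gt_three
  have hpi4 : Real.pi < 3.15 := Real.pi_lt_d2
  have hLC : 1 ≤ L ^ C := one_le_pow₀ (by linarith)
  have hLCpos : 0 < L ^ C := by positivity
  have hNr : (N : ℝ) = 3 * X := by rw [hN]; push_cast; ring
  have hNpos : (0 : ℝ) < N := by rw [hNr]; positivity
  set η : ℝ := 1 / (4 * Real.pi * X * L ^ C) with hη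
  have hηpos : 0 < η := by positivity
  have hηN : η < 1 / N := by
    rw [hη, hNr]
    apply one_div_lt_one_div_of_lt (by positivity)
    have : 12 * X ≤ 4 * Real.pi * X * L ^ C := by
      have h1 : (12 : ℝ) ≤ 4 * Real.pi * L ^ C := by nlinarith
      nlinarith
    linarith
  -- the intervals
  set I : ZMod N → Set ℝ := fun j => Set.Icc ((j.val : ℝ) / N) ((j.val : ℝ) / N + η) with hI
  set S : Finset (ZMod N) := spec N X ξ (1 / L ^ C) with hS
  have hsub : (⋃ j ∈ S, I j) ⊆ {θ : ℝ | 0 ≤ θ ∧ θ ≤ 1 ∧ 1 / L ^ (C + 1) <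
      ‖∑ n ∈ Icc 1 X, (ξ n : ℂ) * ee ((n : ℝ) * θ)‖} := by
    intro t ht
    simp only [Set.mem_iUnion] at ht
    obtain ⟨j, hj, htj⟩ := ht
    rw [hI] at htj
    simp only [Set.mem_Icc] at htj
    have hjlt : j.val < N := ZMod.val_lt j
    have hj1 : ((j.val : ℝ) + 1) / N ≤ 1 := by
      rw [div_le_one hNpos]
      exact_mod_cast hjlt
    have hj0 : (0 : ℝ) ≤ (j.val : ℝ) / N := by positivity
    refine ⟨hj0.trans htj.1, ?_, ?_⟩
    · have : (j.val : ℝ) / N + 1 / N ≤ 1 := by rw [← add_div]; exact hj1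
      linarith [htj.2]
    · rw [hS, spec, Finset.mem_filter] at hj
      have h1 := hj.2
      rw [tr_ee] at h1
      have h2 := lip_sum X ξ hξ hs ((j.val : ℝ) / N) t
      have h3 : |(j.val : ℝ) / N - t| ≤ η := by
        rw [abs_le]
        constructor <;> linarith [htj.1, htj.2]
      have h4 : 2 * Real.pi * X * |(j.val : ℝ) / N - t| ≤ 1 / L ^ C / 2 := by
        calc 2 * Real.pi * X * |(j.val : ℝ) / N - t| ≤ 2 * Real.pi * X * η :=
              mul_le_mul_of_nonneg_left h3 (by positivity)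
          _ = 1 / L ^ C / 2 := by
              rw [hη]
              field_simp
              ring
      have h5 : 1 / L ^ (C + 1) ≤ 1 / L ^ C / 2 := by
        rw [div_div]
        apply one_div_le_one_div_of_le (by positivity)
        rw [pow_succ]
        nlinarith
      linarith
  have hdisj : Set.PairwiseDisjoint (S : Set (ZMod N)) I := by
    intro a _ b _ hab
    rw [Function.onFun, Set.disjoint_left]
    intro t hta htb
    rw [hI] at hta htb
    simp only [Set.mem_Icc] at hta htb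
    have hne : a.val ≠ b.val := fun h => hab (ZMod.val_injective N h)
    rcases lt_or_gt_of_ne hne with h | h
    · have : ((a.val : ℝ) + 1) / N ≤ (b.val : ℝ) / N := by
        apply div_le_div_of_nonneg_right _ hNpos.le
        exact_mod_cast h
      rw [add_div] at this
      linarith [hta.2, htb.1]
    · have : ((b.val : ℝ) + 1) / N ≤ (a.val : ℝ) / N := by
        apply div_le_div_of_nonneg_right _ hNpos.le
        exact_mod_cast h
      rw [add_div] at this
      linarith [htb.2, hta.1]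
  have hm : MeasureTheory.volume (⋃ j ∈ S, I j) = S.card * ENNReal.ofReal η := by
    rw [MeasureTheory.measure_biUnion_finset hdisj (fun j _ => measurableSet_Icc)]
    have : ∀ j ∈ S, MeasureTheory.volume (I j) = ENNReal.ofReal η := by
      intro j _
      rw [hI]
      simp only [Real.volume_Icc]
      congr 1
      ring
    rw [Finset.sum_congr rfl this, Finset.sum_const, nsmul_eq_mul]
  have hle : (S.card : ENNReal) * ENNReal.ofReal η ≤ ENNReal.ofReal (L ^ K / X) := by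
    rw [← hm]
    exact (MeasureTheory.measure_mono hsub).trans hvol
  have hle2 : (S.card : ℝ) * η ≤ L ^ K / X := by
    have h1 : (S.card : ENNReal) * ENNReal.ofReal η = ENNReal.ofReal ((S.card : ℝ) * η) := by
      rw [ENNReal.ofReal_mul (by positivity), ENNReal.ofReal_natCast]
    rw [h1] at hle
    exact (ENNReal.ofReal_le_ofReal_iff (by positivity)).1 hle
  have hfin : (S.card : ℝ) ≤ 4 * Real.pi * L ^ C * L ^ K := by
    have h1 : (S.card : ℝ) * η * (4 * Real.pi * X * L ^ C) ≤ L ^ K / X * (4 * Real.pi * X * L ^ C) :=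
      mul_le_mul_of_nonneg_right hle2 (by positivity)
    have h2 : (S.card : ℝ) * η * (4 * Real.pi * X * L ^ C) = S.card := by
      rw [hη]
      field_simp
    have h3 : L ^ K / X * (4 * Real.pi * X * L ^ C) = 4 * Real.pi * L ^ C * L ^ K := by
      field_simp
    rw [h2, h3] at h1
    exact h1
  refine hfin.trans ?_
  have h1 : L ^ (K + C + 1) = L * (L ^ C * L ^ K) := by ring
  rw [h1, mul_assoc]
  exact mul_le_mul_of_nonneg_right (by linarith) (by positivity)

end Pool.MP_dd84fd_nt.LS
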