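import Pool.Agent.Lib.MP_dd84fd_nt.E2.SupClose
import Pool.Agent.Lib.MP_dd84fd_nt.E2.FBound
import Pool.Agent.Lib.MP_dd84fd_nt.E2.ConvMain
import Pool.Agent.Lib.MP_dd84fd_nt.E2.SingRate
import Pool.Agent.Lib.MP_dd84fd_nt.LS.SpecBound
import Pool.Agent.Lib.MP_dd84fd_nt.LS.Four

/-!
# small numbers (module LS-SM)
-/

set_option autoImplicit false

namespace Pool.MP_dd84fd_nt.LS

open Finset Pool.MP_67663b_nt.Odd Pool.MP_dd84fd_nt.En Pool.MP_dd84fd_nt.E2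

private lemma sm_tr (N : ℕ) [NeZero N] (M : ℕ) (j : ZMod N) :
    ‖tr N M (fun _ => 1) j‖ ≤ M := by
  unfold tr
  refine (norm_sum_le _ _).trans ?_
  have h1 : ∀ n ∈ Icc 1 M, ‖(((1 : ℝ) : ℂ)) * ZMod.stdAddChar ((n : ZMod N) * j)‖ ≤ 1 := by
    intro n _
    rw [norm_mul, AddChar.norm_apply, mul_one, Complex.norm_real]
    simp
  refine (Finset.sum_le_card_nsmul _ _ 1 h1).trans ?_
  simp

theorem small_part (N : ℕ) [NeZero N] (X : ℕ) (ξ : ℕ → ℝ) (hξ : ∀ n, 0 ≤ ξ n)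
    (hsum : ∑ n ∈ Icc 1 X, ξ n ≤ 1) (δ : ℝ) (hδ : 0 ≤ δ) (M : ℕ) (hM : M + X < N) (hM1 : 1 ≤ M) :
    ∑ n ∈ (Icc 1 X).filter (fun n => 2 * n ≤ M), ξ n ≤
      4 * (δ + ((spec N X ξ δ).card : ℝ) / N * M) := by
  have hN : (0 : ℝ) < N := by exact_mod_cast Nat.pos_of_ne_zero (NeZero.ne N)
  have hMR : (1 : ℝ) ≤ M := by exact_mod_cast hM1
  have h1 := spec_bound N X ξ hξ hsum
    (fun j => ((‖tr N M (fun _ => 1) j‖ ^ 2 : ℝ) : ℂ)) δ hδ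
  have h2 : (1 / (N : ℝ)) * ∑ j : ZMod N, ‖tr N M (fun _ => 1) j‖ ^ 2 = M := by
    rw [parseval N M (by omega)]
    simp
  have h3 : (1 / (N : ℝ)) * ∑ j : ZMod N, ‖((‖tr N M (fun _ => 1) j‖ ^ 2 : ℝ) : ℂ)‖ = M := by
    rw [← h2]
    congr 1
    refine Finset.sum_congr rfl fun j _ => ?_
    rw [Complex.norm_real, Real.norm_of_nonneg (by positivity)]
  have h4 : (1 / (N : ℝ)) * ∑ j : ZMod N, ‖((‖tr N M (fun _ => 1) j‖ ^ 2 : ℝ) : ℂ)‖ ^ 2 ≤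
      (M : ℝ) ^ 3 := by
    have h5 : (M : ℝ) ^ 3 = (1 / (N : ℝ)) *
        ∑ j : ZMod N, (M : ℝ) ^ 2 * ‖tr N M (fun _ => 1) j‖ ^ 2 := by
      rw [← Finset.mul_sum, mul_left_comm, h2]
      ring
    rw [h5]
    refine mul_le_mul_of_nonneg_left (Finset.sum_le_sum fun j _ => ?_) (by positivity)
    rw [Complex.norm_real, Real.norm_of_nonneg (by positivity),
      pow_two (‖tr N M (fun _ => 1) j‖ ^ 2)]
    have h6 : ‖tr N M (fun _ => 1) j‖ ^ 2 ≤ (M : ℝ) ^ 2 :=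
      pow_le_pow_left₀ (norm_nonneg _) (sm_tr N M j) 2
    exact mul_le_mul_of_nonneg_right h6 (by positivity)
  rw [h3] at h1
  have h5 : ∑ n ∈ (Icc 1 X).filter (fun n => 2 * n ≤ M), ξ n * ((M : ℝ) ^ 2 / 4) ≤
      ∑ n ∈ Icc 1 X, ξ n * ‖co N (fun j => ((‖tr N M (fun _ => 1) j‖ ^ 2 : ℝ) : ℂ)) n‖ ^ 2 := by
    refine le_trans (Finset.sum_le_sum (g := fun n =>
      ξ n * ‖co N (fun j => ((‖tr N M (fun _ => 1) j‖ ^ 2 : ℝ) : ℂ)) n‖ ^ 2) fun n hn => ?_)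
      (Finset.sum_le_sum_of_subset_of_nonneg (Finset.filter_subset _ _)
        fun n _ _ => mul_nonneg (hξ n) (by positivity))
    rw [Finset.mem_filter, Finset.mem_Icc] at hn
    refine mul_le_mul_of_nonneg_left ?_ (hξ n)
    rw [co_fejer N M n (by omega) (by omega)]
    have h6 : ((M : ℂ) - n) = (((M : ℝ) - n : ℝ) : ℂ) := by push_cast; rfl
    have h7 : (2 : ℝ) * n ≤ M := by exact_mod_cast hn.2
    rw [h6, Complex.norm_real, Real.norm_of_nonneg (by linarith)]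
    nlinarith
  rw [← Finset.sum_mul] at h5
  have h6 : ((spec N X ξ δ).card : ℝ) / N * ((1 / (N : ℝ)) *
      ∑ j : ZMod N, ‖((‖tr N M (fun _ => 1) j‖ ^ 2 : ℝ) : ℂ)‖ ^ 2) ≤
      ((spec N X ξ δ).card : ℝ) / N * (M : ℝ) ^ 3 :=
    mul_le_mul_of_nonneg_left h4 (by positivity)
  have h7 : (∑ n ∈ (Icc 1 X).filter (fun n => 2 * n ≤ M), ξ n) * ((M : ℝ) ^ 2 / 4) ≤
      (4 * (δ + ((spec N X ξ δ).card : ℝ) / N * M)) * ((M : ℝ) ^ 2 / 4) := by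
    refine (h5.trans (h1.trans (add_le_add le_rfl h6))).trans (le_of_eq ?_)
    ring
  exact le_of_mul_le_mul_right h7 (by positivity)

end Pool.MP_dd84fd_nt.LS
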