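import Pool.Agent.Lib.MP_dd84fd_nt.LS.ScaleBad
import Pool.Agent.Lib.MP_dd84fd_nt.LS.Small

/-!
# the large spectrum theorem, discrete form (module LS-DI)
-/

set_option autoImplicit false

namespace Pool.MP_dd84fd_nt.LS

open Finset Pool.MP_67663b_nt.Odd Pool.MP_dd84fd_nt.En Pool.MP_dd84fd_nt.E2

private lemma di_split (X n : ℕ) (hn : n ≤ X) (k : ℕ) :
    n ≤ X / 2 ^ k ∨ ∃ i, i < k ∧ n ≤ X / 2 ^ i ∧ X / 2 ^ i < 2 * n := by
  induction k with
  | zero => left; simpa using hn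
  | succ k ih =>
    rcases ih with h | ⟨i, hi, h⟩
    · by_cases h2 : X / 2 ^ k < 2 * n
      · exact Or.inr ⟨k, Nat.lt_succ_self k, h, h2⟩
      · left
        rw [pow_succ, ← Nat.div_div_eq_div_mul, Nat.le_div_iff_mul_le (by norm_num)]
        omega
    · exact Or.inr ⟨i, hi.trans (Nat.lt_succ_self k), h⟩

open Classical in
theorem discrete (B K : ℕ) : ∃ X0 : ℕ, ∀ X : ℕ, X0 ≤ X → ∀ (N : ℕ) [NeZero N], N = 3 * X →
    ∀ ξ : ℕ → ℝ, (∀ n, 0 ≤ ξ n) → ∑ n ∈ Icc 1 X, ξ n ≤ 1 →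
    ((spec N X ξ (1 / (Real.log X) ^ (3 * B + 6))).card : ℝ) ≤ (Real.log X) ^ K →
    ∑ n ∈ (Icc 1 X).filter (fun n => Even n ∧ Bad B n), ξ n ≤ 1 / (Real.log X) ^ B := by
  obtain ⟨X1, hX1⟩ := scale_bad B K
  obtain ⟨X2, hX2⟩ := MP_log_large 16
  obtain ⟨X3, hX3⟩ := MP_log_pow 32 (K + B) (ε := 1 / 2) (by norm_num)
  refine ⟨max (max X1 X2) (max X3 1), fun X hX N _ hN ξ hξ hsum hcard => ?_⟩
  simp only [max_le_iff] at hX
  obtain ⟨⟨hXa, hXb⟩, hXc, hXd⟩ := hX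
  have hsc := hX1 X hXa
  have hL16 := hX2 X hXb
  have hpw := hX3 X hXc
  have hXR : (1 : ℝ) ≤ X := by exact_mod_cast hXd
  have hX0 : (0 : ℝ) < X := by linarith
  obtain ⟨L, hL⟩ : ∃ L : ℝ, L = Real.log X := ⟨_, rfl⟩
  obtain ⟨δ, hδ⟩ : ∃ δ : ℝ, δ = 1 / (Real.log X) ^ (3 * B + 6) := ⟨_, rfl⟩
  rw [← hδ] at hcard
  rw [← hL] at hL16 hpw hcard hδ ⊢
  have hL0 : 0 < L := by linarith
  have hL1 : 1 ≤ L := by linarith
  have hδ0 : 0 ≤ δ := by rw [hδ]; positivity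
  have hl2a := Real.log_two_gt_d9
  have hl2b := Real.log_two_lt_d9
  obtain ⟨m, hm⟩ : ∃ m : ℕ, m = ⌊L⌋₊ := ⟨_, rfl⟩
  have hmL : (m : ℝ) ≤ L := by rw [hm]; exact Nat.floor_le hL0.le
  have hmL' : L < (m : ℝ) + 1 := by rw [hm]; exact Nat.lt_floor_add_one L
  have hm1 : 1 ≤ m := by
    have : (1 : ℝ) ≤ m := by linarith
    exact_mod_cast this
  have hexpL : Real.exp L = X := by rw [hL, Real.exp_log hX0]
  have hpow2 : ∀ i : ℕ, ((2 ^ i : ℕ) : ℝ) = Real.exp (i * Real.log 2) := by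
    intro i
    push_cast
    rw [← Real.rpow_natCast, Real.rpow_def_of_pos (by norm_num), mul_comm]
  -- the scales
  have hY : ∀ i : ℕ, i ≤ m → 1 ≤ X / 2 ^ i ∧ L ≤ 4 * Real.log ((X / 2 ^ i : ℕ) : ℝ) := by
    intro i hi
    have hiR : (i : ℝ) ≤ L := le_trans (by exact_mod_cast hi) hmL
    have h1 : 2 ^ i ≤ X := by
      have h2 : ((2 ^ i : ℕ) : ℝ) ≤ X := by
        rw [hpow2, ← hexpL, Real.exp_le_exp]
        nlinarith only [hL16, hiR, hl2a, hl2b]
      exact_mod_cast h2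
    have h2 : 1 ≤ X / 2 ^ i := (Nat.one_le_div_iff (by positivity)).2 h1
    refine ⟨h2, ?_⟩
    have h3 : X < 2 ^ (i + 1) * (X / 2 ^ i) := by
      have h4 := Nat.lt_mul_div_succ X (show 0 < 2 ^ i by positivity)
      calc X < 2 ^ i * (X / 2 ^ i + 1) := h4
        _ ≤ 2 ^ i * (2 * (X / 2 ^ i)) := Nat.mul_le_mul_left _ (by omega)
        _ = 2 ^ (i + 1) * (X / 2 ^ i) := by ring
    have h4 : (X : ℝ) ≤ ((2 ^ (i + 1) : ℕ) : ℝ) * ((X / 2 ^ i : ℕ) : ℝ) := by exact_mod_cast h3.le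
    have h5 : (0 : ℝ) < ((X / 2 ^ i : ℕ) : ℝ) := by exact_mod_cast h2
    have h6 : L ≤ ((i + 1 : ℕ) : ℝ) * Real.log 2 + Real.log ((X / 2 ^ i : ℕ) : ℝ) := by
      have h7 := Real.log_le_log hX0 h4
      rw [Real.log_mul (by positivity) h5.ne', hpow2, Real.log_exp] at h7
      rw [hL]
      exact h7
    push_cast at h6
    nlinarith only [h6, hL16, hiR, hl2a, hl2b]
  have hYX : ∀ i : ℕ, X / 2 ^ i ≤ X := fun i => Nat.div_le_self _ _
  obtain ⟨hYm, -⟩ := hY m le_rfl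
  obtain ⟨M, hM⟩ : ∃ M : ℕ, M = 2 * (X / 2 ^ m) := ⟨_, rfl⟩
  have h2m : 2 ≤ 2 ^ m := by
    calc 2 = 2 ^ 1 := by norm_num
      _ ≤ 2 ^ m := Nat.pow_le_pow_right (by norm_num) hm1
  have hMX : M ≤ X := by
    rw [hM]
    calc 2 * (X / 2 ^ m) ≤ 2 ^ m * (X / 2 ^ m) := Nat.mul_le_mul_right _ h2m
      _ ≤ X := Nat.mul_div_le _ _
  have hXpos : 0 < X := hXd
  have hsmall := small_part N X ξ hξ hsum δ hδ0 M (by omega) (by omega)
  -- decomposition
  have hdec : ∑ n ∈ (Icc 1 X).filter (fun n => Even n ∧ Bad B n), ξ n ≤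
      ∑ i ∈ range m, ∑ n ∈ (Icc 1 (X / 2 ^ i)).filter
        (fun n => Even n ∧ X / 2 ^ i < 2 * n ∧ Bad B n), ξ n +
      ∑ n ∈ (Icc 1 X).filter (fun n => 2 * n ≤ M), ξ n := by
    have h1 : ∀ i ∈ range m, ∑ n ∈ (Icc 1 (X / 2 ^ i)).filter
        (fun n => Even n ∧ X / 2 ^ i < 2 * n ∧ Bad B n), ξ n =
        ∑ n ∈ Icc 1 X, if n ≤ X / 2 ^ i ∧ Even n ∧ X / 2 ^ i < 2 * n ∧ Bad B n then ξ n else 0 := by
      intro i _
      rw [← Finset.sum_filter]
      refine Finset.sum_congr ?_ fun _ _ => rfl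
      ext n
      have := hYX i
      simp only [Finset.mem_filter, Finset.mem_Icc]
      constructor
      · rintro ⟨⟨h1, h2⟩, h3⟩
        exact ⟨⟨h1, h2.trans this⟩, h2, h3⟩
      · rintro ⟨⟨h1, _⟩, h2, h3⟩
        exact ⟨⟨h1, h2⟩, h3⟩
    rw [Finset.sum_congr rfl h1, Finset.sum_comm, Finset.sum_filter, Finset.sum_filter,
      ← Finset.sum_add_distrib]
    refine Finset.sum_le_sum fun n hn => ?_
    obtain ⟨hn1, hnX⟩ := Finset.mem_Icc.1 hn
    have hnn : ∀ i ∈ range m, 0 ≤ (if n ≤ X / 2 ^ i ∧ Even n ∧ X / 2 ^ i < 2 * n ∧ Bad B n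
        then ξ n else 0) := by
      intro i _
      split_ifs
      · exact hξ n
      · exact le_rfl
    have hnn2 : 0 ≤ (if 2 * n ≤ M then ξ n else 0) := by
      split_ifs
      · exact hξ n
      · exact le_rfl
    by_cases hb : Even n ∧ Bad B n
    · rw [if_pos hb]
      rcases di_split X n hnX m with h2 | ⟨i, hi, h2, h3⟩
      · have h4 : 2 * n ≤ M := by omega
        rw [if_pos h4]
        have := Finset.sum_nonneg hnn
        linarith only [this]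
      · have h4 := Finset.single_le_sum hnn (Finset.mem_range.2 hi)
        rw [if_pos ⟨h2, hb.1, h3, hb.2⟩] at h4
        linarith only [h4, hnn2]
    · rw [if_neg hb]
      have := Finset.sum_nonneg hnn
      linarith only [hnn2, this]
  refine hdec.trans ?_
  have h1 : ∑ i ∈ range m, ∑ n ∈ (Icc 1 (X / 2 ^ i)).filter
        (fun n => Even n ∧ X / 2 ^ i < 2 * n ∧ Bad B n), ξ n ≤ 1 / (4 * L ^ B) := by
    have h5 : ∀ i ∈ range m, ∑ n ∈ (Icc 1 (X / 2 ^ i)).filter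
        (fun n => Even n ∧ X / 2 ^ i < 2 * n ∧ Bad B n), ξ n ≤ 1 / (4 * L ^ (B + 1)) := by
      intro i hi
      have h3 := hY i (Finset.mem_range.1 hi).le
      have h4 := hsc (X / 2 ^ i) (hYX i) (by rw [← hL]; exact h3.2) N hN ξ hξ hsum (by
        rw [← hL, ← hδ]; exact hcard)
      rw [← hL] at h4
      exact h4
    refine (Finset.sum_le_sum h5).trans ?_
    rw [Finset.sum_const, Finset.card_range, nsmul_eq_mul, mul_one_div,
      div_le_div_iff₀ (by positivity) (by positivity), pow_succ]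
    nlinarith only [hL0, hl2a, hl2b, hmL, pow_pos hL0 B]
  have h2 : 4 * (δ + ((spec N X ξ δ).card : ℝ) / N * M) ≤ 1 / (4 * L ^ B) + 1 / (4 * L ^ B) := by
    have h3 : 4 * δ ≤ 1 / (4 * L ^ B) := by
      rw [hδ, mul_one_div, div_le_div_iff₀ (by positivity) (by positivity),
        show 3 * B + 6 = B + (2 * B + 6) by ring, pow_add]
      have h4 : (16 : ℝ) ≤ L ^ (2 * B + 6) := by
        calc (16 : ℝ) ≤ L := hL16
          _ = L ^ 1 := (pow_one L).symm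
          _ ≤ L ^ (2 * B + 6) := pow_le_pow_right₀ hL1 (by omega)
      nlinarith only [h4, hL0, hl2a, hl2b, pow_pos hL0 B]
    have h4 : 4 * (((spec N X ξ δ).card : ℝ) / N * M) ≤ 1 / (4 * L ^ B) := by
      have hNX : (N : ℝ) = 3 * X := by rw [hN]; push_cast; ring
      have hMle : (M : ℝ) ≤ 2 * (X / ((2 ^ m : ℕ) : ℝ)) := by
        have h5 : ((X / 2 ^ m : ℕ) : ℝ) ≤ X / ((2 ^ m : ℕ) : ℝ) := Nat.cast_div_le
        rw [hM]
        push_cast at h5 ⊢
        linarith only [h5]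
      have h2mR : (0 : ℝ) < ((2 ^ m : ℕ) : ℝ) := by positivity
      have h5 : 32 * L ^ (K + B) ≤ ((2 ^ m : ℕ) : ℝ) := by
        refine hpw.trans ?_
        rw [hpow2, Real.rpow_def_of_pos hX0, Real.exp_le_exp, ← hL]
        nlinarith only [hL16, hl2a, hl2b, hmL']
      calc 4 * (((spec N X ξ δ).card : ℝ) / N * M)
          ≤ 4 * (L ^ K / (3 * X) * (2 * (X / ((2 ^ m : ℕ) : ℝ)))) := by
            rw [hNX]
            refine mul_le_mul_of_nonneg_left (mul_le_mul ?_ hMle (by positivity) (by positivity))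
              (by norm_num)
            exact div_le_div_of_nonneg_right hcard (by positivity)
        _ = 8 / 3 * L ^ K / ((2 ^ m : ℕ) : ℝ) := by
            field_simp
            ring
        _ ≤ 1 / (4 * L ^ B) := by
            rw [div_le_div_iff₀ h2mR (by positivity), one_mul]
            refine le_trans ?_ h5
            rw [pow_add]
            have : 0 ≤ L ^ K * L ^ B := by positivity
            nlinarith only [this]
    linarith
  have h3 : 1 / L ^ B = 4 * (1 / (4 * L ^ B)) := by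
    field_simp
  have h4 : 0 ≤ 1 / (4 * L ^ B) := by positivity
  linarith

end Pool.MP_dd84fd_nt.LS
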