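import Pool.Agent.Lib.MP_dd84fd_nt.E2.SupClose
import Pool.Agent.Lib.MP_dd84fd_nt.E2.FBound
import Pool.Agent.Lib.MP_dd84fd_nt.E2.ConvMain
import Pool.Agent.Lib.MP_dd84fd_nt.E2.SingRate
import Pool.Agent.Lib.MP_dd84fd_nt.LS.SpecBound
import Pool.Agent.Lib.MP_dd84fd_nt.LS.Four

/-!
# the second moment at scale `Y` (module LS-SC)
-/

set_option autoImplicit false

namespace Pool.MP_dd84fd_nt.LS

open Finset Pool.MP_67663b_nt.Odd Pool.MP_dd84fd_nt.En Pool.MP_dd84fd_nt.E2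

private lemma sc_ip_zero : ip 0 = 0 := by
  unfold ip
  rw [if_neg Nat.not_prime_zero]

private lemma sc_g_eq (n : ℕ) : (g n : ℝ) = ∑ a ∈ Icc 1 (n - 1), ip a * ip (n - a) := by
  unfold g
  rw [Finset.card_eq_sum_ones, Nat.cast_sum, Finset.sum_filter]
  have h1 : ∀ a ∈ range (n + 1), (if (Nat.Prime a ∧ Nat.Prime (n - a)) then ((1 : ℕ) : ℝ) else 0) =
      ip a * ip (n - a) := by
    intro a _
    unfold ip
    by_cases h2 : Nat.Prime a <;> by_cases h3 : Nat.Prime (n - a) <;> simp [h2, h3]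
  rw [Finset.sum_congr rfl h1]
  symm
  refine Finset.sum_subset (fun a ha => ?_) (fun a ha hn => ?_)
  · rw [Finset.mem_Icc] at ha
    rw [Finset.mem_range]
    omega
  · rw [Finset.mem_range] at ha
    rw [Finset.mem_Icc] at hn
    have h4 : a = 0 ∨ n - a = 0 := by omega
    rcases h4 with h4 | h4
    · rw [h4, sc_ip_zero, zero_mul]
    · rw [h4, sc_ip_zero, mul_zero]

private lemma sc_log_ge_half {n : ℕ} (hn : 2 ≤ n) : 1 / 2 ≤ Real.log n := by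
  have h1 : Real.log 2 ≤ Real.log n :=
    Real.log_le_log (by norm_num) (by exact_mod_cast hn)
  have h2 := Real.log_two_gt_d9
  linarith

private lemma sc_f2_bound {w n : ℕ} {L : ℝ} (hL : 1 ≤ L) (h : f1 w n ≤ L) (h0 : 0 ≤ f1 w n) :
    0 ≤ f2 w n ∧ f2 w n ≤ 2 * L := by
  unfold f2
  rcases Nat.lt_or_ge n 2 with hn | hn
  · have h1 : Real.log n = 0 := by
      interval_cases n <;> simp
    rw [h1, div_zero]
    exact ⟨le_rfl, by linarith⟩
  · have h1 := sc_log_ge_half hn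
    refine ⟨div_nonneg h0 (by linarith), ?_⟩
    rw [div_le_iff₀ (by linarith)]
    nlinarith

theorem scale_bound (A : ℕ) : ∃ D0 : ℕ, ∀ D' : ℕ, D0 ≤ D' → ∃ Y0 : ℕ, ∀ Y : ℕ, Y0 ≤ Y →
    ∀ (X N : ℕ) [NeZero N], Y ≤ X → 2 * Y < N → ∀ ξ : ℕ → ℝ, (∀ n, 0 ≤ ξ n) →
    ∑ n ∈ Icc 1 X, ξ n ≤ 1 → ∀ δ : ℝ, 0 ≤ δ →
    ∑ n ∈ Icc 1 Y, ξ n * ((g n : ℝ) - conv2 (wX D' Y) n) ^ 2 ≤
      δ * (5 * Y * (Real.log Y) ^ 2) ^ 2 + ((spec N X ξ δ).card : ℝ) / N *
        ((Y / (Real.log Y) ^ A) ^ 2 * (9 * Y * (Real.log Y) ^ 2)) := by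
  obtain ⟨D0, hD0⟩ := sup_close A
  refine ⟨D0, fun D' hD' => ?_⟩
  obtain ⟨XS, hXS⟩ := hD0 D' hD'
  obtain ⟨XF, hXF⟩ := f1_le D'
  obtain ⟨XL, hXL⟩ := MP_log_large 18
  refine ⟨max (max XS XF) (max XL 1), fun Y hY X N _ hYX hYN ξ hξ hsum δ hδ => ?_⟩
  have hY1 : XS ≤ Y := ((le_max_left _ _).trans (le_max_left _ _)).trans hY
  have hY2 : XF ≤ Y := ((le_max_right _ _).trans (le_max_left _ _)).trans hY
  have hY3 : XL ≤ Y := ((le_max_left _ _).trans (le_max_right _ _)).trans hY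
  have hY4 : 1 ≤ Y := ((le_max_right _ _).trans (le_max_right _ _)).trans hY
  obtain ⟨L, hL⟩ : ∃ L : ℝ, L = Real.log Y := ⟨_, rfl⟩
  have hL18 : 18 ≤ L := by rw [hL]; exact hXL Y hY3
  obtain ⟨w, hw⟩ : ∃ w : ℕ, w = wX D' Y := ⟨_, rfl⟩
  have hsup := hXS Y hY1
  rw [← hw, ← hL] at hsup
  rw [← hw, ← hL]
  have hYR : (1 : ℝ) ≤ Y := by exact_mod_cast hY4
  have hY0 : (0 : ℝ) < Y := by linarith
  have hL0 : 0 < L := by linarith
  have hwle : (w : ℝ) ≤ (Real.log Y) ^ D' := by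
    rw [hw, wX]
    exact Nat.floor_le (by rw [← hL]; positivity)
  have hf := (hXF Y hY2 w hwle).2
  rw [← hL] at hf
  have hfb : ∀ n, 0 ≤ f2 w n ∧ f2 w n ≤ 2 * L := fun n =>
    sc_f2_bound (by linarith) (hf n) (f1_nonneg w n)
  have hipb : ∀ n, 0 ≤ ip n ∧ ip n ≤ 1 := by
    intro n
    unfold ip
    split_ifs <;> norm_num
  have hNR : (0 : ℝ) < N := by
    have : 0 < N := by omega
    exact_mod_cast this
  have hYN' : Y < N := by omega
  obtain ⟨r, hr⟩ : ∃ r : ZMod N → ℂ, r = fun j => tr N Y ip j ^ 2 - tr N Y (f2 w) j ^ 2 := ⟨_, rfl⟩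
  have hco : ∀ n ∈ Icc 1 Y, ‖co N r n‖ ^ 2 = ((g n : ℝ) - conv2 w n) ^ 2 := by
    intro n hn
    have hnY : n ≤ Y := (Finset.mem_Icc.1 hn).2
    rw [hr, co_sub, co_sq N Y hYN ip n hnY, co_sq N Y hYN (f2 w) n hnY, ← Complex.ofReal_sub,
      Complex.norm_real, Real.norm_eq_abs, sq_abs, sc_g_eq]
    rfl
  have hsb := spec_bound N X ξ hξ hsum r δ hδ
  have hleft : ∑ n ∈ Icc 1 Y, ξ n * ((g n : ℝ) - conv2 w n) ^ 2 ≤
      ∑ n ∈ Icc 1 X, ξ n * ‖co N r n‖ ^ 2 := by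
    rw [Finset.sum_congr rfl fun n hn => by rw [← hco n hn]]
    exact Finset.sum_le_sum_of_subset_of_nonneg (Finset.Icc_subset_Icc_right hYX)
      fun n _ _ => mul_nonneg (hξ n) (by positivity)
  have hcard : ((Icc 1 Y).card : ℝ) = Y := by simp
  have h1 : (1 / (N : ℝ)) * ∑ j, ‖r j‖ ≤ 5 * Y * L ^ 2 := by
    have h2 : (1 / (N : ℝ)) * ∑ j, ‖r j‖ ≤ (1 / (N : ℝ)) * ∑ j : ZMod N, ‖tr N Y ip j‖ ^ 2 +
        (1 / (N : ℝ)) * ∑ j : ZMod N, ‖tr N Y (f2 w) j‖ ^ 2 := by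
      rw [← mul_add, ← Finset.sum_add_distrib]
      refine mul_le_mul_of_nonneg_left (Finset.sum_le_sum fun j _ => ?_) (by positivity)
      rw [hr]
      refine (norm_sub_le _ _).trans ?_
      rw [norm_pow, norm_pow]
    refine h2.trans ?_
    rw [parseval N Y hYN', parseval N Y hYN']
    have h3 : ∑ n ∈ Icc 1 Y, ip n ^ 2 ≤ Y := by
      calc ∑ n ∈ Icc 1 Y, ip n ^ 2 ≤ ∑ _n ∈ Icc 1 Y, (1 : ℝ) := by
            refine Finset.sum_le_sum fun n _ => ?_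
            have := hipb n
            nlinarith
        _ = Y := by rw [Finset.sum_const, nsmul_eq_mul, mul_one, hcard]
    have h4 : ∑ n ∈ Icc 1 Y, f2 w n ^ 2 ≤ Y * (4 * L ^ 2) := by
      calc ∑ n ∈ Icc 1 Y, f2 w n ^ 2 ≤ ∑ _n ∈ Icc 1 Y, 4 * L ^ 2 := by
            refine Finset.sum_le_sum fun n _ => ?_
            have := hfb n
            nlinarith
        _ = Y * (4 * L ^ 2) := by rw [Finset.sum_const, nsmul_eq_mul, hcard]
    have h5 : (Y : ℝ) ≤ Y * L ^ 2 := le_mul_of_one_le_right hY0.le (by nlinarith)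
    linarith
  have h2 : (1 / (N : ℝ)) * ∑ j, ‖r j‖ ^ 2 ≤ (Y / L ^ A) ^ 2 * (9 * Y * L ^ 2) := by
    have h3 : (1 / (N : ℝ)) * ∑ j, ‖r j‖ ^ 2 ≤ (Y / L ^ A) ^ 2 * ((1 / (N : ℝ)) *
        ∑ j : ZMod N, ‖tr N Y (fun n => ip n + f2 w n) j‖ ^ 2) := by
      rw [mul_left_comm]
      refine mul_le_mul_of_nonneg_left ?_ (by positivity)
      rw [Finset.mul_sum]
      refine Finset.sum_le_sum fun j _ => ?_
      have h4 : r j = (tr N Y ip j - tr N Y (f2 w) j) * (tr N Y (fun n => ip n + f2 w n) j) := by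
        rw [tr_add, hr]
        ring
      rw [h4, norm_mul, mul_pow]
      refine mul_le_mul_of_nonneg_right (pow_le_pow_left₀ (norm_nonneg _) ?_ 2) (sq_nonneg _)
      rw [tr_ip, tr_f2]
      exact hsup _
    refine h3.trans (mul_le_mul_of_nonneg_left ?_ (sq_nonneg _))
    rw [parseval N Y hYN']
    calc ∑ n ∈ Icc 1 Y, (ip n + f2 w n) ^ 2 ≤ ∑ _n ∈ Icc 1 Y, 9 * L ^ 2 := by
          refine Finset.sum_le_sum fun n _ => ?_
          have h5 := hfb n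
          have h6 := hipb n
          have h7 : ip n + f2 w n ≤ 3 * L := by linarith
          have h8 : 0 ≤ ip n + f2 w n := by linarith
          nlinarith
      _ = 9 * Y * L ^ 2 := by
          rw [Finset.sum_const, nsmul_eq_mul, hcard]
          ring
  refine hleft.trans (hsb.trans (add_le_add ?_ ?_))
  · refine mul_le_mul_of_nonneg_left (pow_le_pow_left₀ ?_ h1 2) hδ
    exact mul_nonneg (by positivity) (Finset.sum_nonneg fun _ _ => norm_nonneg _)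
  · exact mul_le_mul_of_nonneg_left h2 (by positivity)

end Pool.MP_dd84fd_nt.LS
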