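import Pool.Agent.Lib.MP_dd84fd_nt.LS.Scale
import Pool.Agent.Lib.MP_dd84fd_nt.LS.Point

/-!
# bad numbers at scale `Y` (module LS-BD)
-/

set_option autoImplicit false

namespace Pool.MP_dd84fd_nt.LS

open Finset Pool.MP_67663b_nt.Odd Pool.MP_dd84fd_nt.En Pool.MP_dd84fd_nt.E2

/-- the numerical inequality at the end -/
private theorem num_ineq (B K : ℕ) (L l : ℝ) (hl : 0 < l) (hlL : l ≤ L) (hL4 : L ≤ 4 * l)
    (h1 : 3200 ≤ L) (h2 : 384 * (4 : ℝ) ^ (2 * K + 2 * B + 4) ≤ L) :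
    16 * l ^ (2 * B) * (25 * l ^ 4 / L ^ (3 * B + 6)) +
      16 * l ^ (2 * B) * (3 * L ^ K * l ^ 2 / l ^ (2 * (K + 2 * B + 3))) ≤ 1 / (4 * L ^ (B + 1)) := by
  have hL : 0 < L := by linarith
  have hL1 : 1 ≤ L := by linarith
  have e1 : 16 * l ^ (2 * B) * (25 * l ^ 4 / L ^ (3 * B + 6)) ≤ 1 / (8 * L ^ (B + 1)) := by
    have a1 : 16 * l ^ (2 * B) * (25 * l ^ 4 / L ^ (3 * B + 6)) =
        400 * (l ^ (2 * B + 4) / L ^ (3 * B + 6)) := by ring
    have a2 : l ^ (2 * B + 4) ≤ L ^ (2 * B + 4) := pow_le_pow_left₀ hl.le hlL _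
    have a3 : l ^ (2 * B + 4) / L ^ (3 * B + 6) ≤ L ^ (2 * B + 4) / L ^ (3 * B + 6) := by
      gcongr
    have a4 : L ^ (2 * B + 4) / L ^ (3 * B + 6) = 1 / L ^ (B + 2) := by
      rw [div_eq_div_iff (by positivity) (by positivity), one_mul, ← pow_add]
      congr 1
      ring
    have a5 : (400 : ℝ) * (1 / L ^ (B + 2)) ≤ 1 / (8 * L ^ (B + 1)) := by
      rw [mul_one_div, div_le_div_iff₀ (by positivity) (by positivity), pow_succ L (B + 1)]
      have : 0 < L ^ (B + 1) := by positivity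
      nlinarith
    rw [a1]
    calc 400 * (l ^ (2 * B + 4) / L ^ (3 * B + 6)) ≤ 400 * (L ^ (2 * B + 4) / L ^ (3 * B + 6)) := by
          linarith
      _ = 400 * (1 / L ^ (B + 2)) := by rw [a4]
      _ ≤ _ := a5
  have e2 : 16 * l ^ (2 * B) * (3 * L ^ K * l ^ 2 / l ^ (2 * (K + 2 * B + 3))) ≤
      1 / (8 * L ^ (B + 1)) := by
    have b1 : 16 * l ^ (2 * B) * (3 * L ^ K * l ^ 2 / l ^ (2 * (K + 2 * B + 3))) =
        48 * L ^ K / l ^ (2 * K + 2 * B + 4) := by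
      rw [mul_div_assoc', div_eq_div_iff (by positivity) (by positivity)]
      have : l ^ (2 * (K + 2 * B + 3)) = l ^ (2 * K + 2 * B + 4) * l ^ (2 * B) * l ^ 2 := by
        rw [← pow_add, ← pow_add]
        congr 1
        ring
      rw [this]
      ring
    have b2 : (L / 4) ^ (2 * K + 2 * B + 4) ≤ l ^ (2 * K + 2 * B + 4) :=
      pow_le_pow_left₀ (by positivity) (by linarith) _
    have b3 : 48 * L ^ K / l ^ (2 * K + 2 * B + 4) ≤ 48 * L ^ K / (L / 4) ^ (2 * K + 2 * B + 4) := by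
      gcongr
    have b4 : 48 * L ^ K / (L / 4) ^ (2 * K + 2 * B + 4) =
        48 * (4 : ℝ) ^ (2 * K + 2 * B + 4) / L ^ (K + 2 * B + 4) := by
      rw [div_pow, div_eq_div_iff (by positivity) (by positivity)]
      have : L ^ (2 * K + 2 * B + 4) = L ^ K * L ^ (K + 2 * B + 4) := by
        rw [← pow_add]
        congr 1
        ring
      rw [this]
      field_simp
    have b5 : 48 * (4 : ℝ) ^ (2 * K + 2 * B + 4) / L ^ (K + 2 * B + 4) ≤ 1 / (8 * L ^ (B + 1)) := by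
      rw [div_le_div_iff₀ (by positivity) (by positivity)]
      have c1 : L ^ (K + 2 * B + 4) = L ^ (B + 1) * L ^ (K + B + 3) := by
        rw [← pow_add]
        congr 1
        ring
      have c2 : L ≤ L ^ (K + B + 3) := by
        calc L = L ^ 1 := (pow_one L).symm
          _ ≤ L ^ (K + B + 3) := pow_le_pow_right₀ hL1 (by omega)
      rw [c1]
      have c3 : 0 < L ^ (B + 1) := by positivity
      calc 48 * (4 : ℝ) ^ (2 * K + 2 * B + 4) * (8 * L ^ (B + 1))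
          = L ^ (B + 1) * (384 * (4 : ℝ) ^ (2 * K + 2 * B + 4)) := by ring
        _ ≤ L ^ (B + 1) * L ^ (K + B + 3) := by
            apply mul_le_mul_of_nonneg_left (h2.trans c2) c3.le
        _ = 1 * (L ^ (B + 1) * L ^ (K + B + 3)) := by ring
    rw [b1]
    exact b3.trans (b4.le.trans b5)
  have e3 : 1 / (4 * L ^ (B + 1)) = 1 / (8 * L ^ (B + 1)) + 1 / (8 * L ^ (B + 1)) := by
    field_simp
    norm_num
  rw [e3]
  exact add_le_add e1 e2

open Classical in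
theorem scale_bad (B K : ℕ) : ∃ X0 : ℕ, ∀ X : ℕ, X0 ≤ X → ∀ Y : ℕ, Y ≤ X →
    Real.log X ≤ 4 * Real.log Y → ∀ (N : ℕ) [NeZero N], N = 3 * X → ∀ ξ : ℕ → ℝ, (∀ n, 0 ≤ ξ n) →
    ∑ n ∈ Icc 1 X, ξ n ≤ 1 →
    ((spec N X ξ (1 / (Real.log X) ^ (3 * B + 6))).card : ℝ) ≤ (Real.log X) ^ K →
    ∑ n ∈ (Icc 1 Y).filter (fun n => Even n ∧ Y < 2 * n ∧ Bad B n), ξ n ≤
      1 / (4 * (Real.log X) ^ (B + 1)) := by
  obtain ⟨D0, hD0⟩ := scale_bound (K + 2 * B + 3)
  obtain ⟨Y1, hY1⟩ := hD0 (max D0 (B + 5)) (le_max_left _ _)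
  obtain ⟨Y2, hY2⟩ := point_close B (max D0 (B + 5)) (le_max_right _ _)
  -- the threshold
  set Ym : ℕ := max (max Y1 Y2) 4 with hYm
  set T : ℝ := max (max 3200 (384 * (4 : ℝ) ^ (2 * K + 2 * B + 4))) (4 * Real.log Ym) with hT
  obtain ⟨X0, hX0⟩ : ∃ X0 : ℕ, ∀ X : ℕ, X0 ≤ X → T ≤ Real.log X := by
    have := (Real.tendsto_log_atTop.comp tendsto_natCast_atTop_atTop).eventually_ge_atTop T
    obtain ⟨X0, h⟩ := Filter.eventually_atTop.1 this
    exact ⟨X0, fun X hX => h X hX⟩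
  refine ⟨X0, ?_⟩
  intro X hX Y hYX hlog N _ hN ξ hξ hsum hcard
  have hTL := hX0 X hX
  set L : ℝ := Real.log X with hLdef
  set l : ℝ := Real.log Y with hldef
  have hL1 : 3200 ≤ L := ((le_max_left _ _).trans (le_max_left _ _)).trans hTL
  have hL2 : 384 * (4 : ℝ) ^ (2 * K + 2 * B + 4) ≤ L :=
    ((le_max_right _ _).trans (le_max_left _ _)).trans hTL
  have hL3 : 4 * Real.log Ym ≤ L := (le_max_right _ _).trans hTL
  have hl0 : 0 < l := by linarith
  have hYpos : 0 < Y := by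
    rcases Nat.eq_zero_or_pos Y with h | h
    · rw [hldef, h] at hl0
      simp at hl0
    · exact h
  have hYposR : (0 : ℝ) < Y := by exact_mod_cast hYpos
  have hXpos : 0 < X := lt_of_lt_of_le hYpos hYX
  have hXposR : (0 : ℝ) < X := by exact_mod_cast hXpos
  have hYXR : (Y : ℝ) ≤ X := by exact_mod_cast hYX
  have hlL : l ≤ L := Real.log_le_log hYposR hYXR
  have hYmpos : (0 : ℝ) < Ym := by
    have : 4 ≤ Ym := le_max_right _ _
    exact_mod_cast (show 0 < Ym by omega)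
  have hYge : Ym ≤ Y := by
    have h1 : Real.log Ym ≤ Real.log Y := by linarith
    have h2 := (Real.log_le_log_iff hYmpos hYposR).1 h1
    exact_mod_cast h2
  have hY1' : Y1 ≤ Y := ((le_max_left _ _).trans (le_max_left _ _)).trans hYge
  have hY2' : Y2 ≤ Y := ((le_max_right _ _).trans (le_max_left _ _)).trans hYge
  have hY4 : 4 ≤ Y := (le_max_right _ _).trans hYge
  have hL0 : 0 < L := by linarith
  have hNY : 2 * Y < N := by omega
  have hkey := hY1 Y hY1' X N hYX hNY ξ hξ hsum (1 / L ^ (3 * B + 6)) (by positivity)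
  set w : ℕ := wX (max D0 (B + 5)) Y with hw
  -- lower bound for each bad term
  have hlow : ∀ n ∈ (Icc 1 Y).filter (fun n => Even n ∧ Y < 2 * n ∧ Bad B n),
      ξ n * (Y / (4 * l ^ B)) ^ 2 ≤ ξ n * ((g n : ℝ) - conv2 w n) ^ 2 := by
    intro n hn
    rw [mem_filter, mem_Icc] at hn
    obtain ⟨⟨hn1, hnY⟩, heven, hY2n, hbad⟩ := hn
    apply mul_le_mul_of_nonneg_left _ (hξ n)
    have hp := hY2 Y hY2' n heven (by omega) hnY
    unfold Bad at hbad
    have hnR : (0 : ℝ) < n := by exact_mod_cast (show 0 < n by omega)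
    have hn2 : (1 : ℝ) < n := by exact_mod_cast (show 1 < n by omega)
    have hlogn : 0 < Real.log n := Real.log_pos hn2
    have hlognl : Real.log n ≤ l := Real.log_le_log hnR (by exact_mod_cast hnY)
    have hYn : (Y : ℝ) ≤ 2 * n := by exact_mod_cast hY2n.le
    have h1 : (Y : ℝ) / (2 * l ^ B) ≤ n / (Real.log n) ^ B := by
      have h2 : (Real.log n) ^ B ≤ l ^ B := pow_le_pow_left₀ hlogn.le hlognl _
      have h3 : (0 : ℝ) < (Real.log n) ^ B := by positivity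
      have h4 : (0 : ℝ) < l ^ B := by positivity
      calc (Y : ℝ) / (2 * l ^ B) ≤ (2 * n) / (2 * l ^ B) := by gcongr
        _ = n / l ^ B := by
            rw [mul_div_mul_left _ _ (by norm_num)]
        _ ≤ n / (Real.log n) ^ B := by gcongr
    have h5 : (Y : ℝ) / (4 * l ^ B) ≤ |(g n : ℝ) - conv2 w n| := by
      have h6 : |(g n : ℝ) - SS n * JJ n| ≤ |(g n : ℝ) - conv2 w n| + |conv2 w n - SS n * JJ n| := by
        have := abs_sub_le (g n : ℝ) (conv2 w n) (SS n * JJ n)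
        exact this
      have h7 : (Y : ℝ) / (2 * l ^ B) = Y / (4 * l ^ B) + Y / (4 * l ^ B) := by
        have : (0 : ℝ) < l ^ B := by positivity
        field_simp
        norm_num
      linarith
    have h8 : 0 ≤ (Y : ℝ) / (4 * l ^ B) := by positivity
    calc (Y / (4 * l ^ B)) ^ 2 ≤ |(g n : ℝ) - conv2 w n| ^ 2 := pow_le_pow_left₀ h8 h5 2
      _ = ((g n : ℝ) - conv2 w n) ^ 2 := sq_abs _
  have hS : (∑ n ∈ (Icc 1 Y).filter (fun n => Even n ∧ Y < 2 * n ∧ Bad B n), ξ n) *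
      (Y / (4 * l ^ B)) ^ 2 ≤ ∑ n ∈ Icc 1 Y, ξ n * ((g n : ℝ) - conv2 w n) ^ 2 := by
    rw [sum_mul]
    refine (sum_le_sum hlow).trans ?_
    apply sum_le_sum_of_subset_of_nonneg (filter_subset _ _)
    intro n _ _
    exact mul_nonneg (hξ n) (sq_nonneg _)
  have hN' : (N : ℝ) = 3 * X := by rw [hN]; push_cast; ring
  have hq : (0 : ℝ) < (Y / (4 * l ^ B)) ^ 2 := by positivity
  set S : ℝ := ∑ n ∈ (Icc 1 Y).filter (fun n => Even n ∧ Y < 2 * n ∧ Bad B n), ξ n with hSdef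
  have hfin : S * (Y / (4 * l ^ B)) ^ 2 ≤
      1 / L ^ (3 * B + 6) * (5 * Y * l ^ 2) ^ 2 +
      L ^ K / (3 * X) * ((Y / l ^ (K + 2 * B + 3)) ^ 2 * (9 * Y * l ^ 2)) := by
    refine hS.trans (hkey.trans ?_)
    rw [hN']
    gcongr
  have hfin2 : L ^ K / (3 * X) * ((Y / l ^ (K + 2 * B + 3)) ^ 2 * (9 * Y * l ^ 2)) ≤
      L ^ K * ((Y / l ^ (K + 2 * B + 3)) ^ 2 * (3 * l ^ 2)) := by
    have h1 : L ^ K / (3 * X) * ((Y / l ^ (K + 2 * B + 3)) ^ 2 * (9 * Y * l ^ 2)) =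
        (Y / X) * (L ^ K * ((Y / l ^ (K + 2 * B + 3)) ^ 2 * (3 * l ^ 2))) := by
      field_simp
      ring
    have h2 : (Y : ℝ) / X ≤ 1 := by
      rw [div_le_one hXposR]; exact hYXR
    rw [h1]
    apply mul_le_of_le_one_left _ h2
    positivity
  have hmul : (1 / L ^ (3 * B + 6) * (5 * Y * l ^ 2) ^ 2 +
      L ^ K * ((Y / l ^ (K + 2 * B + 3)) ^ 2 * (3 * l ^ 2))) =
      (16 * l ^ (2 * B) * (25 * l ^ 4 / L ^ (3 * B + 6)) +
      16 * l ^ (2 * B) * (3 * L ^ K * l ^ 2 / l ^ (2 * (K + 2 * B + 3)))) *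
      (Y / (4 * l ^ B)) ^ 2 := by
    have e1 : l ^ (2 * B) = (l ^ B) ^ 2 := by rw [← pow_mul]; congr 1; ring
    have e2 : l ^ (2 * (K + 2 * B + 3)) = (l ^ (K + 2 * B + 3)) ^ 2 := by
      rw [← pow_mul]; congr 1; ring
    rw [e1, e2]
    have p1 : l ^ B ≠ 0 := by positivity
    have p2 : l ^ (K + 2 * B + 3) ≠ 0 := by positivity
    have p3 : L ^ (3 * B + 6) ≠ 0 := by positivity
    generalize l ^ B = a at *
    generalize l ^ (K + 2 * B + 3) = b at *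
    generalize L ^ (3 * B + 6) = c at *
    field_simp
    ring
  have hfin3 : S * (Y / (4 * l ^ B)) ^ 2 ≤ (1 / (4 * L ^ (B + 1))) * (Y / (4 * l ^ B)) ^ 2 := by
    refine hfin.trans ?_
    refine (add_le_add_right hfin2 _).trans ?_
    rw [hmul]
    exact mul_le_mul_of_nonneg_right (num_ineq B K L l hl0 hlL hlog hL1 hL2) hq.le
  exact le_of_mul_le_mul_right hfin3 hq

end Pool.MP_dd84fd_nt.LS
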